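import Pool.Agent.Helper654.PtakL

/-!
# Project CZ, piece VN: von Neumann's inequality on a disc
-/

set_option autoImplicit false

open Polynomial Filter Topology

namespace Pool.Agent.W2helper17.CZ

/-- the characteristic polynomial as a product over a family -/
theorem exists_fam {n : ℕ} [NeZero n] (T : EuclideanSpace ℂ (Fin n) →L[ℂ] EuclideanSpace ℂ (Fin n))
    (t : ℝ) (ht : ‖T‖ ≤ t) : ∃ (m : ℕ) (z : Fin (m + 1) → ℂ), (∀ j, ‖z j‖ ≤ t) ∧
      aeval T (∏ j, (X - C (z j))) = 0 := by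
  let T' : Module.End ℂ (EuclideanSpace ℂ (Fin n)) := (T : EuclideanSpace ℂ (Fin n) →ₗ[ℂ] _)
  have hsp : T'.charpoly.Splits := IsAlgClosed.splits _
  have hprod := hsp.eq_prod_roots_of_monic T'.charpoly_monic
  have hdeg : T'.charpoly.roots.card = n := by
    rw [← hsp.natDegree_eq_card_roots, LinearMap.charpoly_natDegree, finrank_euclideanSpace,
      Fintype.card_fin]
  obtain ⟨L, hL⟩ : ∃ L : List ℂ, T'.charpoly.roots = (L : Multiset ℂ) := ⟨_, (Multiset.coe_toList _).symm⟩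
  have hlen : L.length = n := by rw [← hdeg, hL, Multiset.coe_card]
  obtain ⟨m, hm⟩ : ∃ m, n = m + 1 := Nat.exists_eq_succ_of_ne_zero (NeZero.ne n)
  have hlen' : m + 1 = L.length := by rw [hlen, hm]
  refine ⟨m, fun j => L.get (Fin.cast hlen' j), fun j => ?_, ?_⟩
  · have hmem : L.get (Fin.cast hlen' j) ∈ T'.charpoly.roots := by
      rw [hL, Multiset.mem_coe]
      exact List.get_mem _ _
    have hroot : T'.charpoly.IsRoot (L.get (Fin.cast hlen' j)) :=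
      (mem_roots'.1 hmem).2
    obtain ⟨v, hv⟩ := ((Module.End.hasEigenvalue_iff_isRoot_charpoly T' _).2 hroot).exists_hasEigenvector
    have h1 : T v = L.get (Fin.cast hlen' j) • v := hv.apply_eq_smul
    have h2 := T.le_opNorm v
    rw [h1, norm_smul] at h2
    have h3 : 0 < ‖v‖ := norm_pos_iff.2 hv.2
    exact (le_of_mul_le_mul_right h2 h3).trans ht
  · have h1 : ∏ j : Fin (m + 1), (X - C (L.get (Fin.cast hlen' j))) = T'.charpoly := by
      rw [hprod, hL, Multiset.map_coe, Multiset.prod_coe]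
      subst hm
      have h2 : (L.map fun x => (X - C x : ℂ[X])) = List.ofFn fun j : Fin (m + 1) =>
          (X - C (L.get (Fin.cast hlen' j))) := by
        apply List.ext_get
        · simp [hlen]
        · intro k h3 h4
          rw [List.get_eq_getElem, List.get_eq_getElem, List.getElem_map, List.getElem_ofFn]
          rfl
      rw [h2, List.prod_ofFn]
    rw [h1]
    have h2 : Module.End.toContinuousLinearMap (𝕜 := ℂ) (EuclideanSpace ℂ (Fin n)) T' = T := by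
      ext v
      rfl
    have h3 := aeval_algHom_apply (Module.End.toContinuousLinearMap (𝕜 := ℂ)
      (EuclideanSpace ℂ (Fin n))) T' T'.charpoly
    rw [h2] at h3
    rw [h3]
    have h4 : aeval T' T'.charpoly = 0 := LinearMap.aeval_self_charpoly _
    rw [h4, map_zero]

theorem vnDisc {n : ℕ} [NeZero n]
    (A : EuclideanSpace ℂ (Fin n) →L[ℂ] EuclideanSpace ℂ (Fin n)) (a : ℂ) (ρ : ℝ) (hρ : 0 < ρ)
    (h : ‖A - a • (1 : EuclideanSpace ℂ (Fin n) →L[ℂ] EuclideanSpace ℂ (Fin n))‖ ≤ ρ)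
    (p : Polynomial ℂ) (M : ℝ) (hM : ∀ z : ℂ, ‖z - a‖ = ρ → ‖p.eval z‖ ≤ M) :
    ‖Polynomial.aeval A p‖ ≤ M := by
  have hρ' : (ρ : ℂ) ≠ 0 := Complex.ofReal_ne_zero.2 hρ.ne'
  obtain ⟨B, hB⟩ : ∃ B : EuclideanSpace ℂ (Fin n) →L[ℂ] EuclideanSpace ℂ (Fin n),
    B = (ρ : ℂ)⁻¹ • (A - a • 1) := ⟨_, rfl⟩
  obtain ⟨G, hG⟩ : ∃ G : ℂ[X], G = p.comp (C a + C (ρ : ℂ) * X) := ⟨_, rfl⟩
  have hBn : ‖B‖ ≤ 1 := by
    rw [hB, norm_smul, norm_inv, Complex.norm_real, Real.norm_eq_abs, abs_of_pos hρ,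
      inv_mul_le_iff₀ hρ, mul_one]
    exact h
  have hGB : aeval B G = aeval A p := by
    rw [hG, aeval_comp]
    congr 1
    rw [map_add, map_mul, aeval_C, aeval_C, aeval_X, hB, Algebra.algebraMap_eq_smul_one,
      Algebra.algebraMap_eq_smul_one, smul_mul_assoc, one_mul, smul_smul, mul_inv_cancel₀ hρ',
      one_smul]
    rw [add_sub_cancel (a • (1 : EuclideanSpace ℂ (Fin n) →L[ℂ] EuclideanSpace ℂ (Fin n))) A]
  have hGM : ∀ ζ : ℂ, ‖ζ‖ = 1 → ‖G.eval ζ‖ ≤ M := by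
    intro ζ hζ
    rw [hG, eval_comp]
    apply hM
    simp [hζ, abs_of_pos hρ]
  have key : ∀ t : ℝ, t ∈ Set.Ioo (0 : ℝ) 1 → ‖aeval ((t : ℂ) • B) G‖ ≤ M := by
    rintro t ⟨h0, h1⟩
    have hn : ‖(t : ℂ) • B‖ ≤ t := by
      rw [norm_smul, Complex.norm_real, Real.norm_eq_abs, abs_of_pos h0]
      exact mul_le_of_le_one_right h0.le hBn
    obtain ⟨m, z, hz, hp⟩ := exists_fam ((t : ℂ) • B) t hn
    have : Nonempty (Fin n) := ⟨⟨0, Nat.pos_of_ne_zero (NeZero.ne n)⟩⟩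
    exact Pool.Agent.Helper654.Ptak.vN_poly h0 h1 z hz ((t : ℂ) • B) (hn.trans h1.le) hp G M hGM
  have hcont : Continuous fun t : ℝ => ‖aeval ((t : ℂ) • B) G‖ :=
    ((Polynomial.continuous_aeval G).comp (Complex.continuous_ofReal.smul continuous_const)).norm
  have hlim : Tendsto (fun t : ℝ => ‖aeval ((t : ℂ) • B) G‖) (𝓝[<] (1 : ℝ))
      (𝓝 ‖aeval (((1 : ℝ) : ℂ) • B) G‖) := hcont.continuousAt.tendsto.mono_left nhdsWithin_le_nhds
  have hev : ∀ᶠ t : ℝ in 𝓝[<] (1 : ℝ), ‖aeval ((t : ℂ) • B) G‖ ≤ M :=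
    Filter.eventually_of_mem (Ioo_mem_nhdsLT one_pos) key
  have := le_of_tendsto hlim hev
  rwa [Complex.ofReal_one, one_smul, hGB] at this

end Pool.Agent.W2helper17.CZ
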